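import Pool.Agent.helper17.EvenCycle.Core

/-!
# Even cycles in graphs with a nilpotent group action: the twin free case

`x`, `y` adjacent, every neighbour of `x` in the orbit of `y` and conversely, no two vertices with the same
neighbours.  The set `S = {g | x ~ g y}` is large.  All elements of `S` move `x` to a vertex at distance at most `2`; a chain of
commutators gives `z` in the subgroup `H` generated by `S` which acts non trivially, commutes (in the action)
with `H` and moves `x` by a bounded distance `ℓ`.  Rotating a geodesic from `x` to `z x` shows that `y` is moved by the same distance,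
and `core` gives the cycle of length `2 k`.
-/

set_option autoImplicit false

namespace Pool.Agent.helper17.EvenCycle

open Finset
open scoped commutatorElement

variable {W G : Type*} [Group G] [MulAction G W]

/-- `g` moves `x` by at most `n`. -/
def Disp (B : SimpleGraph W) (x : W) (n : ℕ) (g : G) : Prop :=
  ∃ p : B.Walk x (g • x), p.length ≤ n

variable {B : SimpleGraph W}

theorem walk_smul (hB : ∀ (g : G) (u v : W), B.Adj u v → B.Adj (g • u) (g • v)) (g : G) {u v : W}
    (p : B.Walk u v) : ∃ q : B.Walk (g • u) (g • v), q.length = p.length := by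
  induction p with
  | nil => exact ⟨SimpleGraph.Walk.nil, rfl⟩
  | cons h p ih =>
    obtain ⟨q, hq⟩ := ih
    exact ⟨SimpleGraph.Walk.cons (hB g _ _ h) q, by
      rw [SimpleGraph.Walk.length_cons, SimpleGraph.Walk.length_cons, hq]⟩

theorem Disp.mul (hB : ∀ (g : G) (u v : W), B.Adj u v → B.Adj (g • u) (g • v)) {x : W} {m n : ℕ}
    {g h : G} (hg : Disp B x m g) (hh : Disp B x n h) : Disp B x (m + n) (g * h) := by
  obtain ⟨p, hp⟩ := hg
  obtain ⟨q, hq⟩ := hh
  obtain ⟨q', hq'⟩ := walk_smul hB g q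
  refine ⟨p.append (q'.copy rfl (mul_smul g h x).symm), ?_⟩
  rw [SimpleGraph.Walk.length_append, SimpleGraph.Walk.length_copy]
  omega

theorem Disp.inv (hB : ∀ (g : G) (u v : W), B.Adj u v → B.Adj (g • u) (g • v)) {x : W} {n : ℕ}
    {g : G} (hg : Disp B x n g) : Disp B x n g⁻¹ := by
  obtain ⟨p, hp⟩ := hg
  obtain ⟨q, hq⟩ := walk_smul hB g⁻¹ p
  refine ⟨(q.copy rfl (inv_smul_smul g x)).reverse, ?_⟩
  rw [SimpleGraph.Walk.length_reverse, SimpleGraph.Walk.length_copy]
  omega

theorem Disp.comm (hB : ∀ (g : G) (u v : W), B.Adj u v → B.Adj (g • u) (g • v)) {x : W} {n m : ℕ}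
    {g h : G} (hg : Disp B x n g) (hh : Disp B x m h) : Disp B x (2 * n + 2 * m) ⁅g, h⁆ := by
  rw [commutatorElement_def]
  obtain ⟨p, hp⟩ := ((hg.mul hB hh).mul hB (hg.inv hB)).mul hB (hh.inv hB)
  exact ⟨p, by omega⟩

theorem disp_two (hB : ∀ (g : G) (u v : W), B.Adj u v → B.Adj (g • u) (g • v)) {x y : W}
    (hxy : B.Adj x y) {g : G} (hg : B.Adj x (g • y)) : Disp B x 2 g :=
  ⟨SimpleGraph.Walk.cons hg (SimpleGraph.Walk.cons (hB g _ _ hxy.symm) SimpleGraph.Walk.nil),
    le_refl _⟩

/-- The chain of commutators. -/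
theorem chain (hB : ∀ (g : G) (u v : W), B.Adj u v → B.Adj (g • u) (g • v)) {x : W} (S : Set G)
    (hS : ∀ s ∈ S, Disp B x 2 s) (K : Set G) (hK : (1 : G) ∈ K) {c : ℕ}
    (hc : (⊤ : Subgroup G).lowerCentralSeries c = ⊥) (m : ℕ) :
    ∀ (i d : ℕ) (v : G), i + m = c → v ∈ (⊤ : Subgroup G).lowerCentralSeries i → v ∉ K →
      v ∈ Subgroup.closure S → Disp B x d v → d + 4 ≤ 6 * 2 ^ i →
      ∃ z ∈ Subgroup.closure S, z ∉ K ∧ (∀ t ∈ S, ⁅z, t⁆ ∈ K) ∧
        ∃ d, Disp B x d z ∧ d + 4 ≤ 6 * 2 ^ (c - 1) := by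
  induction m with
  | zero =>
    intro i d v hi hv hvK
    rw [add_zero] at hi
    rw [hi, hc, Subgroup.mem_bot] at hv
    rw [hv] at hvK
    exact absurd hK hvK
  | succ m ih =>
    intro i d v hi hv hvK hvS hd hdi
    by_cases h : ∀ t ∈ S, ⁅v, t⁆ ∈ K
    · refine ⟨v, hvS, hvK, h, d, hd, hdi.trans (Nat.mul_le_mul_left _ ?_)⟩
      exact Nat.pow_le_pow_right (by norm_num) (by omega)
    · push Not at h
      obtain ⟨t, ht, htK⟩ := h
      have ht' := Subgroup.subset_closure (k := S) ht
      refine ih (i + 1) (2 * d + 2 * 2) ⁅v, t⁆ (by omega) ?_ htK ?_ (hd.comm hB (hS t ht)) ?_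
      · rw [Subgroup.lowerCentralSeries_succ]
        exact Subgroup.commutator_mem_commutator hv (Subgroup.mem_top t)
      · rw [commutatorElement_def]
        exact mul_mem (mul_mem (mul_mem hvS ht') (inv_mem hvS)) (inv_mem ht')
      · rw [pow_succ]
        omega

/-- Rotation of a walk from `x` to `z x`. -/
theorem rotate (hB : ∀ (g : G) (u v : W), B.Adj u v → B.Adj (g • u) (g • v)) {x y : W} {z : G}
    (H : Subgroup G) (hx : ∀ w, B.Adj x w → ∃ g ∈ H, w = g • y)
    (hz : ∀ h ∈ H, z • h • y = h • z • y) (hne : z • x ≠ x) (p : B.Walk x (z • x)) :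
    ∃ q : B.Walk y (z • y), q.length = p.length := by
  obtain ⟨w, h, p', rfl⟩ := SimpleGraph.Walk.exists_eq_cons_of_ne hne.symm p
  obtain ⟨g, hg, rfl⟩ := hx w h
  have h1 : B.Adj (z • x) (z • g • y) := hB z _ _ h
  obtain ⟨q, hq⟩ := walk_smul hB g⁻¹ (p'.concat h1)
  refine ⟨q.copy (inv_smul_smul g y) ?_, ?_⟩
  · rw [hz g hg, inv_smul_smul]
  · rw [SimpleGraph.Walk.length_copy, hq, SimpleGraph.Walk.length_concat,
      SimpleGraph.Walk.length_cons]

/-- A geodesic as a function. -/
theorem geodesic {u v : W} (p : B.Walk u v) (hp : p.length = B.dist u v) :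
    p.getVert 0 = u ∧ p.getVert (B.dist u v) = v ∧
      (∀ i < B.dist u v, B.Adj (p.getVert i) (p.getVert (i + 1))) ∧
      (∀ i i', i < i' → i' ≤ B.dist u v → p.getVert i ≠ p.getVert i') := by
  refine ⟨p.getVert_zero, ?_, ?_, ?_⟩
  · rw [← hp]
    exact p.getVert_length
  · intro i hi
    exact p.adj_getVert_succ (by omega)
  · intro i i' h1 h2 heq
    have hpath := p.isPath_of_length_eq_dist hp
    have := hpath.getVert_injOn (show i ∈ {i | i ≤ p.length} by
      show i ≤ p.length
      omega) (show i' ∈ {i | i ≤ p.length} by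
      show i' ≤ p.length
      omega) heq
    omega

/-- If `z` fixes the orbit of `x` then it fixes the orbit of `y` (no twins). -/
theorem fix_of_fix (hB : ∀ (g : G) (u v : W), B.Adj u v → B.Adj (g • u) (g • v)) {x y : W} {z : G}
    (H : Subgroup G) (hxy : B.Adj x y) (hy : ∀ w, B.Adj y w → ∃ g ∈ H, w = g • x)
    (htw : ∀ u v, (∃ w, B.Adj u w) → (∀ w, B.Adj u w ↔ B.Adj v w) → u = v)
    (hzH : z ∈ H) (hz : ∀ h ∈ H, z • h • x = h • x) : ∀ h ∈ H, z • h • y = h • y := by
  have hN : ∀ h ∈ H, ∀ u, B.Adj (h • y) u → ∃ h' ∈ H, u = h' • x := by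
    intro h hh u hu
    have h1 : B.Adj y (h⁻¹ • u) := by
      have := hB h⁻¹ _ _ hu
      rwa [inv_smul_smul] at this
    obtain ⟨g, hg, e⟩ := hy _ h1
    refine ⟨h * g, H.mul_mem hh hg, ?_⟩
    rw [mul_smul, ← e, smul_inv_smul]
  intro h hh
  refine (htw (h • y) (z • h • y) ⟨h • x, hB h _ _ hxy.symm⟩ fun w => ⟨fun hw => ?_, fun hw => ?_⟩).symm
  · obtain ⟨h', hh', rfl⟩ := hN h hh w hw
    have := hB z _ _ hw
    rwa [hz h' hh'] at this
  · rw [← mul_smul] at hw
    obtain ⟨h', hh', rfl⟩ := hN (z * h) (H.mul_mem hzH hh) w hw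
    have := hB z⁻¹ _ _ hw
    rw [mul_smul, inv_smul_smul] at this
    have e : z⁻¹ • h' • x = h' • x := by
      rw [inv_smul_eq_iff, hz h' hh']
    rwa [e] at this

/-- The twin free case. -/
theorem twin_free [Fintype G] (hB : ∀ (g : G) (u v : W), B.Adj u v → B.Adj (g • u) (g • v))
    {x y : W} (hxy : B.Adj x y) (hx : ∀ w, B.Adj x w → ∃ g : G, w = g • y)
    (hy : ∀ w, B.Adj y w → ∃ g : G, w = g • x)
    (htw : ∀ u v, (∃ w, B.Adj u w) → (∀ w, B.Adj u w ↔ B.Adj v w) → u = v) {M : ℕ}
    (hM : ∀ u w, B.Adj u w → ∀ v, Nat.card {g : G // g • u = v} ≤ M) {k c : ℕ} (hc : 1 ≤ c)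
    (hk : 3 * 2 ^ c ≤ k + 3) (hS : k ^ 2 * M < Nat.card {g : G // B.Adj x (g • y)})
    (hnil : (⊤ : Subgroup G).lowerCentralSeries c = ⊥) :
    (SimpleGraph.cycleGraph (2 * k)).IsContained B := by
  classical
  set S : Set G := {g | B.Adj x (g • y)} with hSdef
  set H : Subgroup G := Subgroup.closure S with hH
  have hSH : ∀ g ∈ S, g ∈ H := fun g hg => Subgroup.subset_closure hg
  have hxH : ∀ w, B.Adj x w → ∃ g ∈ H, w = g • y := by
    intro w hw
    obtain ⟨g, rfl⟩ := hx w hw
    exact ⟨g, hSH g hw, rfl⟩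
  have hyS : ∀ w, B.Adj y w → ∃ g, g⁻¹ ∈ S ∧ w = g • x := by
    intro w hw
    obtain ⟨g, rfl⟩ := hy w hw
    refine ⟨g, ?_, rfl⟩
    have := hB g⁻¹ _ _ hw
    rw [inv_smul_smul] at this
    exact this.symm
  have hyH : ∀ w, B.Adj y w → ∃ g ∈ H, w = g • x := by
    intro w hw
    obtain ⟨g, hg, rfl⟩ := hyS w hw
    exact ⟨g, by simpa using H.inv_mem (hSH _ hg), rfl⟩
  set K : Set G := {g | ∀ h ∈ H, g • h • x = h • x ∧ g • h • y = h • y} with hK
  have h1K : (1 : G) ∈ K := fun h _ => ⟨one_smul _ _, one_smul _ _⟩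
  -- an element of `S` outside `K`
  obtain ⟨v, hvS, hvK⟩ : ∃ v ∈ S, v ∉ K := by
    by_contra hcon
    push Not at hcon
    have h1 : Nat.card {g : G // B.Adj x (g • y)} ≤ Nat.card {g : G // g • y = y} := by
      refine Nat.card_le_card_of_injective
        (fun g => ⟨g.1, by simpa using (hcon g.1 g.2 1 H.one_mem).2⟩) ?_
      intro a b hab
      simpa [Subtype.ext_iff] using hab
    have h2 := hM y x hxy.symm y
    have h3 : 1 ≤ k := by
      have : 2 ^ 1 ≤ 2 ^ c := Nat.pow_le_pow_right (by norm_num) hc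
      omega
    have h4 : M ≤ k ^ 2 * M := Nat.le_mul_of_pos_left M (by positivity)
    omega
  obtain ⟨z, hzH, hzK, hzS, d, hd, hdc⟩ := chain hB S (fun s hs => disp_two hB hxy hs) K h1K hnil c
    0 2 v (by omega) (by
      rw [Subgroup.lowerCentralSeries_zero]
      exact Subgroup.mem_top v) hvK (hSH v hvS) (disp_two hB hxy hvS) (by norm_num)
  -- commutation
  have hcom : ∀ h ∈ H, ∀ h' ∈ H, z • h • h' • x = h • z • h' • x ∧ z • h • h' • y = h • z • h' • y := by
    intro h hh
    rw [hH] at hh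
    induction hh using Subgroup.closure_induction with
    | mem t ht =>
      intro h' hh'
      have h1 := hzS t ht (t * z * h') (H.mul_mem (H.mul_mem (hSH t ht) hzH) hh')
      have e : ∀ w : W, ⁅z, t⁆ • (t * z * h') • w = z • t • h' • w := by
        intro w
        rw [commutatorElement_def, ← mul_smul, ← mul_smul, ← mul_smul]
        congr 1
        group
      rw [e, e] at h1
      rw [h1.1, h1.2, mul_smul, mul_smul, mul_smul, mul_smul]
      exact ⟨rfl, rfl⟩
    | one => intro h' hh'; simp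
    | mul a b ha hb iha ihb =>
      intro h' hh'
      have h1 := iha (b * h') (H.mul_mem hb hh')
      have h2 := ihb h' hh'
      simp only [mul_smul] at h1 h2 ⊢
      rw [h1.1, h1.2, h2.1, h2.2]
      exact ⟨rfl, rfl⟩
    | inv a ha iha =>
      intro h' hh'
      have h1 := iha (a⁻¹ * h') (H.mul_mem (H.inv_mem ha) hh')
      simp only [mul_smul, smul_inv_smul] at h1
      refine ⟨?_, ?_⟩
      · rw [eq_inv_smul_iff]
        exact h1.1.symm
      · rw [eq_inv_smul_iff]
        exact h1.2.symm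
  have hcx : ∀ h ∈ H, z • h • x = h • z • x := fun h hh => by simpa using (hcom h hh 1 H.one_mem).1
  have hcy : ∀ h ∈ H, z • h • y = h • z • y := fun h hh => by simpa using (hcom h hh 1 H.one_mem).2
  have hzx : z • x ≠ x := by
    intro he
    apply hzK
    have h1 : ∀ h ∈ H, z • h • x = h • x := fun h hh => by rw [hcx h hh, he]
    intro h hh
    exact ⟨h1 h hh, fix_of_fix hB H hxy hyH htw hzH h1 h hh⟩
  have hzy : z • y ≠ y := by
    intro he
    apply hzK
    have h1 : ∀ h ∈ H, z • h • y = h • y := fun h hh => by rw [hcy h hh, he]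
    intro h hh
    exact ⟨fix_of_fix hB H hxy.symm hxH htw hzH h1 h hh, h1 h hh⟩
  -- geodesics
  obtain ⟨p0, hp0⟩ := hd
  obtain ⟨p, hp⟩ := SimpleGraph.Reachable.exists_walk_length_eq_dist ⟨p0⟩
  obtain ⟨q0, hq0⟩ := rotate hB H hxH hcy hzx p
  obtain ⟨q, hq⟩ := SimpleGraph.Reachable.exists_walk_length_eq_dist ⟨q0⟩
  obtain ⟨p1, hp1⟩ := rotate hB H hyH hcx hzy q
  have hl1 : B.dist y (z • y) ≤ B.dist x (z • x) := by
    rw [← hp, ← hq0]
    exact SimpleGraph.dist_le q0
  have hl2 : B.dist x (z • x) ≤ B.dist y (z • y) := by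
    rw [← hq, ← hp1]
    exact SimpleGraph.dist_le p1
  have hl3 : B.dist x (z • x) ≤ d := (SimpleGraph.dist_le p0).trans hp0
  obtain ⟨l, hl⟩ : ∃ l, B.dist x (z • x) = l := ⟨_, rfl⟩
  have hl' : B.dist y (z • y) = l := by omega
  have hlpos : 1 ≤ l := by
    rcases Nat.eq_zero_or_pos l with h0 | h0
    · exfalso
      rw [h0] at hl
      rw [hl] at hp
      exact hzx (SimpleGraph.Walk.eq_of_length_eq_zero hp).symm
    · exact h0
  obtain ⟨gp1, gp2, gp3, gp4⟩ := geodesic p hp
  obtain ⟨gq1, gq2, gq3, gq4⟩ := geodesic q hq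
  rw [hl] at gp2 gp3 gp4
  rw [hl'] at gq2 gq3 gq4
  -- the bound for `l`
  have h2c : 6 * 2 ^ (c - 1) = 3 * 2 ^ c := by
    obtain ⟨c', rfl⟩ : ∃ c', c = c' + 1 := ⟨c - 1, by omega⟩
    rw [Nat.add_sub_cancel, pow_succ]
    ring
  have hlk : l + 1 ≤ k := by omega
  obtain ⟨j, hj⟩ : ∃ j, k = l + j := ⟨k - l, by omega⟩
  have hj1 : 1 ≤ j := by omega
  -- the sets
  set Sf : Finset G := univ.filter fun g => g ∈ S with hSf
  have hSfc : k ^ 2 * M < Sf.card := by
    have : Nat.card {g : G // B.Adj x (g • y)} = Sf.card := by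
      rw [Nat.card_eq_fintype_card, Fintype.card_subtype]
      rfl
    rwa [this] at hS
  rw [hj]
  refine core B hB (M := M) (N := k ^ 2) hlpos hj1 (fun t => if Even t then x else y)
    (fun t => if Even t then p.getVert else q.getVert) z H ?_
    (fun t => if Even t then Sf else Sf.image (fun g => g⁻¹)) ?_ ?_ ?_ ?_ ?_ ?_ ?_ ?_ ?_ ?_
  · intro t i hi v
    by_cases ht : Even t
    · simp only [ht, if_true]
      rcases Nat.lt_or_ge i l with h1 | h1
      · exact hM _ _ (gp3 i h1) v
      · have e : i = (l - 1) + 1 := by omega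
        rw [e]
        exact hM _ _ (gp3 (l - 1) (by omega)).symm v
    · simp only [ht, if_false]
      rcases Nat.lt_or_ge i l with h1 | h1
      · exact hM _ _ (gq3 i h1) v
      · have e : i = (l - 1) + 1 := by omega
        rw [e]
        exact hM _ _ (gq3 (l - 1) (by omega)).symm v
  · intro t
    by_cases ht : Even t
    · simp only [ht, if_true]
      exact hSfc
    · simp only [ht, if_false]
      rw [card_image_of_injective _ inv_injective]
      exact hSfc
  · rw [hj]
    nlinarith [sq_nonneg ((j : ℤ) - 1), hlpos, hj1]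
  · intro t h hh
    by_cases ht : Even t
    · simp only [ht, if_true] at hh
      exact hSH h (mem_filter.1 hh).2
    · simp only [ht, if_false, mem_image] at hh
      obtain ⟨a, ha, rfl⟩ := hh
      exact H.inv_mem (hSH a (mem_filter.1 ha).2)
  · intro t h hh
    by_cases ht : Even t
    · simp only [ht, if_true]
      exact hcx h hh
    · simp only [ht, if_false]
      exact hcy h hh
  · intro t
    by_cases ht : Even t
    · simp only [ht, if_true]
      exact hzx
    · simp only [ht, if_false]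
      exact hzy
  · intro t h hh
    by_cases ht : Even t
    · have ht' : ¬ Even (t + 1) := by
        rw [Nat.even_add_one]
        exact fun h => h ht
      simp only [ht, ht', if_true, if_false] at hh ⊢
      exact (mem_filter.1 hh).2
    · have ht' : Even (t + 1) := by
        rw [Nat.even_add_one]
        exact ht
      simp only [ht, ht', if_true, if_false, mem_image] at hh ⊢
      obtain ⟨a, ha, rfl⟩ := hh
      have h1 : B.Adj x (a • y) := (mem_filter.1 ha).2
      have h2 := hB a⁻¹ _ _ h1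
      rw [inv_smul_smul] at h2
      exact h2.symm
  · intro t
    by_cases ht : Even t
    · simp only [ht, if_true]
      exact gp1
    · simp only [ht, if_false]
      exact gq1
  · intro t
    by_cases ht : Even t
    · simp only [ht, if_true]
      exact gp2
    · simp only [ht, if_false]
      exact gq2
  · intro t i hi
    by_cases ht : Even t
    · simp only [ht, if_true]
      exact gp3 i hi
    · simp only [ht, if_false]
      exact gq3 i hi
  · intro t i i' h1 h2
    by_cases ht : Even t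
    · simp only [ht, if_true]
      exact gp4 i i' h1 h2
    · simp only [ht, if_false]
      exact gq4 i i' h1 h2

end Pool.Agent.helper17.EvenCycle
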