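import Mathlib

/-!
# Even cycles in graphs with a free group action: the cycle construction

Data: `X : ℕ → V` base vertices (alternating between two orbits), `S t` sets of group elements with
`X t ~ h • X (t+1)` for `h ∈ S t`, an element `z ≠ 1` commuting with all of them, and paths `P t` of length `ℓ`
from `X t` to `z • X t`.  A path `q 0 = X 0, q 1, …, q j`, `q t = g t • X t`, is chosen greedily such that the translated
path `g t • P t` avoids everything chosen before; then `P 0`, `z • q`, `g j • P j` and `q` form a cycle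
of length `2ℓ + 2j`.
-/

set_option autoImplicit false

namespace Pool.Agent.helper17.EvenCycle

open Finset

variable {V : Type*}

/-- A closed walk given by a function, injective on `[0, n)`, gives a copy of the cycle graph. -/
theorem cycle_of_fun (B : SimpleGraph V) {n : ℕ} (c : ℕ → V)
    (hadj : ∀ i, i + 1 < n → B.Adj (c i) (c (i + 1))) (hlast : B.Adj (c (n - 1)) (c 0))
    (hinj : ∀ i i', i < i' → i' < n → c i ≠ c i') : (SimpleGraph.cycleGraph n).IsContained B := by
  refine ⟨⟨⟨fun i => c i.val, ?_⟩, ?_⟩⟩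
  · have key : ∀ a b : Fin n, (a - b).val = 1 → B.Adj (c b.val) (c a.val) := by
      intro a b hab
      rcases lt_or_ge b.val a.val with h | h
      · have h1 : a.val = b.val + 1 := by
          rw [Fin.sub_val_of_le (by exact h.le)] at hab
          omega
        rw [h1]
        exact hadj _ (by have := a.isLt; omega)
      · rcases eq_or_lt_of_le h with h2 | h2
        · have h3 : a = b := Fin.ext h2
          rw [h3] at hab
          have : NeZero n := ⟨by have := a.isLt; omega⟩
          rw [sub_self] at hab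
          simp at hab
        · have h4 : a < b := h2
          rw [Fin.coe_sub_iff_lt.mpr h4] at hab
          have ha := a.isLt
          have hb := b.isLt
          have h5 : a.val = 0 := by omega
          have h6 : b.val = n - 1 := by omega
          rw [h5, h6]
          exact hlast
    intro a b hab
    rw [SimpleGraph.cycleGraph_adj'] at hab
    rcases hab with h | h
    · exact (key a b h).symm
    · exact key b a h
  · intro a b hab
    have hab' : c a.val = c b.val := hab
    rcases lt_trichotomy a.val b.val with h | h | h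
    · exact absurd hab' (hinj _ _ h b.isLt)
    · exact Fin.ext h
    · exact absurd hab'.symm (hinj _ _ h a.isLt)

/-- The cycle made of two paths `P`, `R` of length `ℓ` and two paths `q`, `r` of length `j`
(from the common start to the ends). -/
theorem cycle_glue (B : SimpleGraph V) {l j : ℕ} (hl : 1 ≤ l) (hj : 1 ≤ j) (P R q r : ℕ → V)
    (hP : ∀ i < l, B.Adj (P i) (P (i + 1))) (hR : ∀ i < l, B.Adj (R i) (R (i + 1)))
    (hq : ∀ a < j, B.Adj (q a) (q (a + 1))) (hr : ∀ a < j, B.Adj (r a) (r (a + 1)))
    (hP0 : P 0 = q 0) (hPl : P l = r 0) (hR0 : R 0 = q j) (hRl : R l = r j)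
    (iP : ∀ i i', i < i' → i' ≤ l → P i ≠ P i') (iR : ∀ i i', i < i' → i' ≤ l → R i ≠ R i')
    (iq : ∀ a b, a < b → b ≤ j → q a ≠ q b) (ir : ∀ a b, a < b → b ≤ j → r a ≠ r b)
    (dPR : ∀ i i', i ≤ l → i' ≤ l → P i ≠ R i')
    (dPq : ∀ i a, i ≤ l → 1 ≤ a → a ≤ j → P i ≠ q a)
    (dPr : ∀ i a, i < l → a ≤ j → P i ≠ r a)
    (dRq : ∀ i a, 1 ≤ i → i ≤ l → a ≤ j → R i ≠ q a)
    (dRr : ∀ i a, i ≤ l → a < j → R i ≠ r a)
    (dqr : ∀ a b, a ≤ j → b ≤ j → q a ≠ r b) :
    (SimpleGraph.cycleGraph (2 * (l + j))).IsContained B := by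
  set c : ℕ → V := fun i => if i < l then P i else if i < l + j then r (i - l)
    else if i < 2 * l + j then R (2 * l + j - i) else q (2 * l + 2 * j - i) with hc
  have c1 : ∀ i, i < l → c i = P i := fun i hi => by simp only [hc]; rw [if_pos hi]
  have c2 : ∀ i, l ≤ i → i < l + j → c i = r (i - l) := fun i h1 h2 => by
    simp only [hc]; rw [if_neg (by omega), if_pos h2]
  have c3 : ∀ i, l + j ≤ i → i < 2 * l + j → c i = R (2 * l + j - i) := fun i h1 h2 => by
    simp only [hc]; rw [if_neg (by omega), if_neg (by omega), if_pos h2]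
  have c4 : ∀ i, 2 * l + j ≤ i → c i = q (2 * l + 2 * j - i) := fun i h1 => by
    simp only [hc]; rw [if_neg (by omega), if_neg (by omega), if_neg (by omega)]
  refine cycle_of_fun B c ?_ ?_ ?_
  · intro i hi
    rcases lt_or_ge (i + 1) l with h | h
    · rw [c1 i (by omega), c1 (i + 1) h]
      exact hP i (by omega)
    rcases eq_or_lt_of_le h with h | h
    · rw [c1 i (by omega), c2 (i + 1) (by omega) (by omega), ← h, Nat.sub_self, ← hPl, h]
      exact hP i (by omega)
    rcases lt_or_ge (i + 1) (l + j) with h1 | h1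
    · rw [c2 i (by omega) (by omega), c2 (i + 1) (by omega) h1, show i + 1 - l = (i - l) + 1 by omega]
      exact hr _ (by omega)
    rcases eq_or_lt_of_le h1 with h1 | h1
    · rw [c2 i (by omega) (by omega), c3 (i + 1) (by omega) (by omega),
        show 2 * l + j - (i + 1) = l by omega, hRl, show j = (i - l) + 1 by omega]
      exact hr _ (by omega)
    rcases lt_or_ge (i + 1) (2 * l + j) with h2 | h2
    · rw [c3 i (by omega) (by omega), c3 (i + 1) (by omega) (by omega),
        show 2 * l + j - i = (2 * l + j - (i + 1)) + 1 by omega]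
      exact (hR _ (by omega)).symm
    rcases eq_or_lt_of_le h2 with h2 | h2
    · rw [c3 i (by omega) (by omega), c4 (i + 1) (by omega),
        show 2 * l + 2 * j - (i + 1) = j by omega, ← hR0, show 2 * l + j - i = 0 + 1 by omega]
      exact (hR _ (by omega)).symm
    · rw [c4 i (by omega), c4 (i + 1) (by omega),
        show 2 * l + 2 * j - i = (2 * l + 2 * j - (i + 1)) + 1 by omega]
      exact (hq _ (by omega)).symm
  · rw [c4 (2 * (l + j) - 1) (by omega), c1 0 (by omega),
      show 2 * l + 2 * j - (2 * (l + j) - 1) = 0 + 1 by omega, hP0]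
    exact (hq 0 (by omega)).symm
  · intro i i' hi hi'
    rcases lt_or_ge i l with h | h
    · rw [c1 i h]
      rcases lt_or_ge i' l with h' | h'
      · rw [c1 i' h']
        exact iP _ _ hi h'.le
      rcases lt_or_ge i' (l + j) with h' | h'
      · rw [c2 i' (by omega) h']
        exact dPr _ _ h (by omega)
      rcases lt_or_ge i' (2 * l + j) with h' | h'
      · rw [c3 i' (by omega) h']
        exact dPR _ _ h.le (by omega)
      · rw [c4 i' (by omega)]
        exact dPq _ _ h.le (by omega) (by omega)
    rcases lt_or_ge i (l + j) with h | h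
    · rw [c2 i (by omega) h]
      rcases lt_or_ge i' (l + j) with h' | h'
      · rw [c2 i' (by omega) h']
        exact ir _ _ (by omega) (by omega)
      rcases lt_or_ge i' (2 * l + j) with h' | h'
      · rw [c3 i' (by omega) h']
        exact (dRr _ _ (by omega) (by omega)).symm
      · rw [c4 i' (by omega)]
        exact (dqr _ _ (by omega) (by omega)).symm
    rcases lt_or_ge i (2 * l + j) with h | h
    · rw [c3 i (by omega) h]
      rcases lt_or_ge i' (2 * l + j) with h' | h'
      · rw [c3 i' (by omega) h']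
        exact (iR _ _ (by omega) (by omega)).symm
      · rw [c4 i' (by omega)]
        exact dRq _ _ (by omega) (by omega) (by omega)
    · rw [c4 i h, c4 i' (by omega)]
      exact (iq _ _ (by omega) (by omega)).symm

section Action

variable {G : Type*} [Group G] [MulAction G V]

/-- The greedy choice.  `M` bounds the number of group elements mapping a path vertex to a given vertex. -/
theorem greedy [Fintype G] [DecidableEq V] {l j M : ℕ} (X : ℕ → V) (P : ℕ → ℕ → V) (z : G)
    (hM : ∀ t i, i ≤ l → ∀ v : V, Nat.card {g : G // g • P t i = v} ≤ M)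
    (S : ℕ → Finset G) {N : ℕ}
    (hcard : ∀ t, N * M < (S t).card) (hN : (l + 1) * (l + 2 * j) ≤ N + (l + 1)) (n : ℕ) (hn : n ≤ j) :
    ∃ g : ℕ → G, g 0 = 1 ∧ (∀ t < n, ∃ h ∈ S t, g (t + 1) = g t * h) ∧
      (∀ t, 1 ≤ t → t ≤ n → ∀ i ≤ l, ∀ i' ≤ l, g t • P t i ≠ P 0 i') ∧
      (∀ a t, 1 ≤ a → a < t → t ≤ n → ∀ i ≤ l, g t • P t i ≠ g a • X a ∧
        g t • P t i ≠ z • g a • X a) := by
  classical
  induction n with
  | zero =>
    refine ⟨fun _ => 1, rfl, fun t ht => absurd ht (by omega), fun t h1 h2 => absurd h1 (by omega),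
      fun a t h1 h2 h3 => absurd h1 (by omega)⟩
  | succ n ih =>
    obtain ⟨g, g0, gS, gP, gX⟩ := ih (by omega)
    set F : Finset V := (range (l + 1)).image (P 0) ∪ (Ico 1 (n + 1)).image (fun a => g a • X a) ∪
      (Ico 1 (n + 1)).image (fun a => z • g a • X a) with hF
    have hFc : F.card ≤ l + 1 + 2 * n := by
      refine (card_union_le _ _).trans ?_
      refine (Nat.add_le_add_right (card_union_le _ _) _).trans ?_
      have h1 : ((range (l + 1)).image (P 0)).card ≤ l + 1 := by
        simpa using card_image_le (s := range (l + 1)) (f := P 0)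
      have h2 : ((Ico 1 (n + 1)).image (fun a => g a • X a)).card ≤ n := by
        simpa using card_image_le (s := Ico 1 (n + 1)) (f := fun a => g a • X a)
      have h3 : ((Ico 1 (n + 1)).image (fun a => z • g a • X a)).card ≤ n := by
        simpa using card_image_le (s := Ico 1 (n + 1)) (f := fun a => z • g a • X a)
      omega
    have hbad : ((S n).filter (fun h => ∃ i ∈ range (l + 1), (g n * h) • P (n + 1) i ∈ F)).card ≤
        N * M := by
      have h1 : (S n).filter (fun h => ∃ i ∈ range (l + 1), (g n * h) • P (n + 1) i ∈ F) ⊆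
          (range (l + 1) ×ˢ F).biUnion fun p => univ.filter fun h => (g n * h) • P (n + 1) p.1 = p.2 := by
        intro h hh
        obtain ⟨i, hi, hiF⟩ := (mem_filter.1 hh).2
        rw [mem_biUnion]
        exact ⟨(i, (g n * h) • P (n + 1) i), mem_product.2 ⟨hi, hiF⟩, mem_filter.2 ⟨mem_univ _, rfl⟩⟩
      refine (card_le_card h1).trans (card_biUnion_le.trans ?_)
      have h2 : ∀ p ∈ range (l + 1) ×ˢ F,
          (univ.filter fun h => (g n * h) • P (n + 1) p.1 = p.2).card ≤ M := by
        intro p hp
        have hp1 := mem_range.1 (mem_product.1 hp).1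
        refine le_trans ?_ (hM (n + 1) p.1 (by omega) p.2)
        rw [Nat.card_eq_fintype_card, Fintype.card_subtype]
        refine card_le_card_of_injOn (fun h => g n * h) ?_ ?_
        · intro h hh
          simp only [coe_filter, mem_univ, true_and, Set.mem_setOf_eq] at hh ⊢
          exact hh
        · intro h _ h' _ e
          exact mul_left_cancel e
      refine (sum_le_card_nsmul _ _ _ h2).trans ?_
      rw [card_product, card_range, smul_eq_mul]
      refine Nat.mul_le_mul_right M ?_
      have h3 : (l + 1) * F.card ≤ (l + 1) * (l + 1 + 2 * n) := Nat.mul_le_mul_left _ hFc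
      have h4 : (l + 1) * (l + 1 + 2 * n) + (l + 1) ≤ (l + 1) * (l + 2 * j) := by
        rw [← Nat.mul_succ]
        exact Nat.mul_le_mul_left _ (by omega)
      omega
    obtain ⟨h, hS, hh⟩ : ∃ h ∈ S n, ¬ ∃ i ∈ range (l + 1), (g n * h) • P (n + 1) i ∈ F := by
      by_contra hcon
      push Not at hcon
      have h1 : (S n).filter (fun h => ∃ i ∈ range (l + 1), (g n * h) • P (n + 1) i ∈ F) = S n :=
        filter_true_of_mem hcon
      rw [h1] at hbad
      exact absurd (hcard n) (by omega)
    push Not at hh
    refine ⟨Function.update g (n + 1) (g n * h), ?_, ?_, ?_, ?_⟩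
    · rw [Function.update_of_ne (by omega), g0]
    · intro t ht
      rcases eq_or_lt_of_le (Nat.lt_succ_iff.1 ht) with rfl | h1
      · rw [Function.update_self, Function.update_of_ne (by omega)]
        exact ⟨h, hS, rfl⟩
      · rw [Function.update_of_ne (by omega), Function.update_of_ne (by omega)]
        exact gS t h1
    · intro t h1 h2 i hi i' hi'
      rcases eq_or_lt_of_le h2 with rfl | h3
      · rw [Function.update_self]
        intro heq
        refine hh i (mem_range.2 (by omega)) ?_
        rw [heq, hF]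
        refine mem_union_left _ (mem_union_left _ (mem_image_of_mem _ (mem_range.2 (by omega))))
      · rw [Function.update_of_ne (by omega)]
        exact gP t h1 (by omega) i hi i' hi'
    · intro a t h1 h2 h3 i hi
      rcases eq_or_lt_of_le h3 with rfl | h4
      · rw [Function.update_self, Function.update_of_ne (by omega)]
        constructor
        · intro heq
          refine hh i (mem_range.2 (by omega)) ?_
          rw [heq, hF]
          exact mem_union_left _ (mem_union_right _
            (mem_image_of_mem (fun a => g a • X a) (mem_Ico.2 ⟨h1, h2⟩)))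
        · intro heq
          refine hh i (mem_range.2 (by omega)) ?_
          rw [heq, hF]
          exact mem_union_right _
            (mem_image_of_mem (fun a => z • g a • X a) (mem_Ico.2 ⟨h1, h2⟩))
      · rw [Function.update_of_ne (by omega), Function.update_of_ne (by omega)]
        exact gX a t h1 h2 (by omega) i hi

/-- The cycle construction. -/
theorem core [Fintype G] (B : SimpleGraph V)
    (hB : ∀ (g : G) (u v : V), B.Adj u v → B.Adj (g • u) (g • v))
    {l j M : ℕ} (hl : 1 ≤ l) (hj : 1 ≤ j) (X : ℕ → V) (P : ℕ → ℕ → V) (z : G) (H : Subgroup G)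
    (hM : ∀ t i, i ≤ l → ∀ v : V, Nat.card {g : G // g • P t i = v} ≤ M)
    (S : ℕ → Finset G) {N : ℕ} (hcard : ∀ t, N * M < (S t).card)
    (hN : (l + 1) * (l + 2 * j) ≤ N + (l + 1))
    (hSH : ∀ t, ∀ h ∈ S t, h ∈ H) (hz : ∀ t, ∀ h ∈ H, z • h • X t = h • z • X t)
    (hzX : ∀ t, z • X t ≠ X t)
    (hSX : ∀ t, ∀ h ∈ S t, B.Adj (X t) (h • X (t + 1)))
    (hP0 : ∀ t, P t 0 = X t) (hPl : ∀ t, P t l = z • X t)
    (hPadj : ∀ t, ∀ i < l, B.Adj (P t i) (P t (i + 1)))
    (hPinj : ∀ t, ∀ i i', i < i' → i' ≤ l → P t i ≠ P t i') :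
    (SimpleGraph.cycleGraph (2 * (l + j))).IsContained B := by
  classical
  obtain ⟨g, g0, gS, gP, gX⟩ := greedy X P z hM S hcard hN j le_rfl
  have hgH : ∀ t ≤ j, g t ∈ H := by
    intro t
    induction t with
    | zero => intro _; rw [g0]; exact H.one_mem
    | succ t ih =>
      intro ht
      obtain ⟨h, hS, he⟩ := gS t (by omega)
      rw [he]
      exact H.mul_mem (ih (by omega)) (hSH t h hS)
  have hq0 : ∀ t, g t • P t 0 = g t • X t := fun t => by rw [hP0]
  have hqz : ∀ t ≤ j, g t • P t l = z • g t • X t := by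
    intro t ht
    rw [hPl, hz t (g t) (hgH t ht)]
  have gX0 : ∀ t, 1 ≤ t → t ≤ j → ∀ i ≤ l, g t • P t i ≠ g 0 • X 0 ∧
      g t • P t i ≠ z • g 0 • X 0 := by
    intro t h1 h2 i hi
    have e1 := gP t h1 h2 i hi 0 (by omega)
    have e2 := gP t h1 h2 i hi l le_rfl
    rw [hP0] at e1
    rw [hPl] at e2
    rw [g0, one_smul]
    exact ⟨e1, e2⟩
  have gXX : ∀ a t, a < t → t ≤ j → ∀ i ≤ l, g t • P t i ≠ g a • X a ∧
      g t • P t i ≠ z • g a • X a := by
    intro a t h1 h2 i hi
    rcases Nat.eq_zero_or_pos a with rfl | h3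
    · exact gX0 t (by omega) h2 i hi
    · exact gX a t h3 h1 h2 i hi
  have hqadj : ∀ a < j, B.Adj (g a • X a) (g (a + 1) • X (a + 1)) := by
    intro a ha
    obtain ⟨h, hS, he⟩ := gS a ha
    rw [he, mul_smul]
    exact hB _ _ _ (hSX a h hS)
  have hzne : ∀ t ≤ j, z • g t • X t ≠ g t • X t := by
    intro t ht heq
    rw [hz t (g t) (hgH t ht)] at heq
    exact hzX t (smul_left_cancel _ heq)
  refine cycle_glue B hl hj (P 0) (fun i => g j • P j i) (fun a => g a • X a)
    (fun a => z • g a • X a) (hPadj 0) (fun i hi => hB _ _ _ (hPadj j i hi)) hqadj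
    (fun a ha => hB _ _ _ (hqadj a ha)) ?_ ?_ ?_ ?_ (hPinj 0) ?_ ?_ ?_ ?_ ?_ ?_ ?_ ?_ ?_
  · show P 0 0 = g 0 • X 0
    rw [hP0, g0, one_smul]
  · show P 0 l = z • g 0 • X 0
    rw [hPl, g0, one_smul]
  · exact hq0 j
  · exact hqz j le_rfl
  · intro i i' h1 h2 heq
    exact hPinj j i i' h1 h2 (smul_left_cancel _ heq)
  · intro a b h1 h2 heq
    exact (gXX a b h1 h2 0 (by omega)).1 ((hq0 b).trans heq.symm)
  · intro a b h1 h2 heq
    exact (gXX a b h1 h2 0 (by omega)).1 ((hq0 b).trans (smul_left_cancel _ heq).symm)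
  · intro i i' h1 h2 heq
    exact gP j hj le_rfl i' h2 i h1 heq.symm
  · intro i a h1 h2 h3 heq
    exact gP a h2 h3 0 (by omega) i h1 ((hq0 a).trans heq.symm)
  · intro i a h1 h2 heq
    rcases Nat.eq_zero_or_pos a with rfl | h3
    · refine hPinj 0 i l h1 le_rfl (heq.trans ?_)
      show z • g 0 • X 0 = P 0 l
      rw [hPl, g0, one_smul]
    · exact gP a h3 h2 l le_rfl i h1.le ((hqz a h2).trans heq.symm)
  · intro i a h1 h2 h3 heq
    rcases eq_or_lt_of_le h3 with rfl | h4
    · exact hPinj a 0 i (by omega) h2 (by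
        rw [hP0]
        exact (smul_left_cancel _ heq).symm)
    · exact (gXX a j h4 le_rfl i h2).1 heq
  · intro i a h1 h2 heq
    exact (gXX a j h2 le_rfl i h1).2 heq
  · intro a b h1 h2 heq
    rcases lt_trichotomy a b with h3 | rfl | h3
    · have := (gXX a b h3 h2 l le_rfl).1
      rw [hqz b h2] at this
      exact this heq.symm
    · exact hzne a h1 heq.symm
    · have := (gXX b a h3 h1 0 (by omega)).2
      rw [hq0 a] at this
      exact this heq

end Action

end Pool.Agent.helper17.EvenCycle
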