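import Pool.Agent.helper17.EvenCycle.Twins

/-!
# Even cycle free graphs with a nilpotent group of automorphisms: the count

For adjacent `u`, `v` one of the two numbers (neighbours of `u` in the orbit of `v`, neighbours of `v` in the
orbit of `u`) is at most `k ^ 3` (`pair`).  Counting the ordered pairs according to the orbits gives the theorem.
-/

set_option autoImplicit false

namespace Pool.Agent.helper17.EvenCycle

open Finset

variable {V G : Type*} [Group G] [MulAction G V]

theorem edges_le [Fintype V] [Fintype G] (Γ : SimpleGraph V) [Fintype Γ.edgeSet]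
    (hΓ : ∀ (g : G) (u v : V), Γ.Adj u v → Γ.Adj (g • u) (g • v))
    {k c : ℕ} (hc : 1 ≤ c) (hk : 3 * 2 ^ c ≤ k + 3)
    (hnil : (⊤ : Subgroup G).lowerCentralSeries c = ⊥)
    (hfree : (SimpleGraph.cycleGraph (2 * k)).Free Γ) :
    Γ.edgeFinset.card ≤ k ^ 3 * Nat.card (MulAction.orbitRel.Quotient G V) * Fintype.card V := by
  classical
  set m := Nat.card (MulAction.orbitRel.Quotient G V) with hm
  let a : V → V → Prop := fun u v =>
    Nat.card {w // Γ.Adj u w ∧ w ∈ MulAction.orbit G v} ≤ k ^ 3
  have ha : ∀ u v, Γ.Adj u v → a u v ∨ a v u := by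
    intro u v huv
    by_contra hcon
    rw [not_or] at hcon
    exact hfree (pair hΓ huv hc hk (not_le.1 hcon.1) (not_le.1 hcon.2) hnil)
  have hcount : ∀ u, (univ.filter fun v => Γ.Adj u v ∧ a u v).card ≤ k ^ 3 * m := by
    intro u
    have h1 := Finset.card_le_mul_card_image_of_maps_to
      (s := univ.filter fun v => Γ.Adj u v ∧ a u v)
      (t := (univ : Finset (MulAction.orbitRel.Quotient G V)))
      (f := fun v => (Quotient.mk'' v : MulAction.orbitRel.Quotient G V)) (fun _ _ => mem_univ _)
      (k ^ 3) (by
        intro b _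
        rcases (((univ.filter fun v => Γ.Adj u v ∧ a u v).filter
          (fun v => (Quotient.mk'' v : MulAction.orbitRel.Quotient G V) = b))).eq_empty_or_nonempty
          with h0 | ⟨v0, h0⟩
        · rw [h0]
          simp
        · have h2 := mem_filter.1 h0
          have h3 := (mem_filter.1 h2.1).2
          refine le_trans ?_ h3.2
          rw [Nat.card_eq_fintype_card, Fintype.card_subtype]
          refine card_le_card fun v hv => ?_
          have h4 := mem_filter.1 hv
          have h5 := (mem_filter.1 h4.1).2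
          refine mem_filter.2 ⟨mem_univ _, h5.1, ?_⟩
          have h6 : (Quotient.mk'' v : MulAction.orbitRel.Quotient G V) = Quotient.mk'' v0 :=
            h4.2.trans h2.2.symm
          exact (MulAction.orbitRel_apply).1 (Quotient.exact h6))
    refine h1.trans (le_of_eq ?_)
    rw [hm, card_univ, Nat.card_eq_fintype_card]
  have hdeg : ∑ u, Γ.degree u = 2 * Γ.edgeFinset.card := by
    have e : ∀ i1 i2 : Fintype Γ.edgeSet, (@SimpleGraph.edgeFinset V Γ i1).card =
        (@SimpleGraph.edgeFinset V Γ i2).card := fun i1 i2 => by rw [Subsingleton.elim i1 i2]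
    exact (Γ.sum_degrees_eq_twice_card_edges).trans (congrArg (fun t => 2 * t) (e _ _))
  have h1 : ∀ u, Γ.degree u ≤ (univ.filter fun v => Γ.Adj u v ∧ a u v).card +
      (univ.filter fun v => Γ.Adj u v ∧ a v u).card := by
    intro u
    refine le_trans (card_le_card ?_) (card_union_le _ _)
    intro v hv
    rw [SimpleGraph.mem_neighborFinset] at hv
    rw [mem_union]
    rcases ha u v hv with h | h
    · exact Or.inl (mem_filter.2 ⟨mem_univ _, hv, h⟩)
    · exact Or.inr (mem_filter.2 ⟨mem_univ _, hv, h⟩)
  have h2 : ∑ u, (univ.filter fun v => Γ.Adj u v ∧ a v u).card =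
      ∑ u, (univ.filter fun v => Γ.Adj u v ∧ a u v).card := by
    simp only [card_filter]
    rw [sum_comm]
    refine sum_congr rfl fun u _ => sum_congr rfl fun v _ => ?_
    simp only [Γ.adj_comm u v]
  have h3 : ∑ u, (univ.filter fun v => Γ.Adj u v ∧ a u v).card ≤ k ^ 3 * m * Fintype.card V := by
    refine (sum_le_card_nsmul _ _ _ fun u _ => hcount u).trans (le_of_eq ?_)
    rw [smul_eq_mul, card_univ, mul_comm]
  have h4 : ∑ u, Γ.degree u ≤ ∑ u, ((univ.filter fun v => Γ.Adj u v ∧ a u v).card +
      (univ.filter fun v => Γ.Adj u v ∧ a v u).card) := sum_le_sum fun u _ => h1 u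
  rw [sum_add_distrib, h2] at h4
  omega

end Pool.Agent.helper17.EvenCycle
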