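import Pool.Agent.helper17.EvenCycle.Chain

/-!
# Even cycles in graphs with a nilpotent group action: reduction to twin free graphs

`twinGraph B` is the quotient of `B` by the relation of having the same neighbours, realised on sets of vertices
(a vertex `u` becomes `B.neighborSet u`), with the pointwise action.  A cycle in it lifts to `B`.
`biOrb Γ G x y` is the graph of the edges of `Γ` between the orbits of `x` and `y`.
-/

set_option autoImplicit false

namespace Pool.Agent.helper17.EvenCycle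

open Finset
open scoped Pointwise

variable {V G : Type*} [Group G] [MulAction G V]

/-- The twin quotient, on neighbourhoods. -/
def twinGraph (B : SimpleGraph V) : SimpleGraph (Set V) where
  Adj A A' := ∃ u v, B.Adj u v ∧ B.neighborSet u = A ∧ B.neighborSet v = A'
  symm := ⟨fun _ _ ⟨u, v, h, hu, hv⟩ => ⟨v, u, h.symm, hv, hu⟩⟩
  loopless := ⟨fun _ ⟨u, v, h, hu, hv⟩ => by
    have h1 : v ∈ B.neighborSet u := h
    rw [hu, ← hv] at h1
    exact B.loopless.irrefl v h1⟩

theorem twinGraph_adj (B : SimpleGraph V) {u v : V} :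
    (twinGraph B).Adj (B.neighborSet u) (B.neighborSet v) ↔ B.Adj u v := by
  constructor
  · rintro ⟨u', v', h, hu, hv⟩
    have h1 : v' ∈ B.neighborSet u := hu ▸ (show v' ∈ B.neighborSet u' from h)
    have h2 : u ∈ B.neighborSet v := hv ▸ (show u ∈ B.neighborSet v' from (show B.Adj u v' from h1).symm)
    exact (show B.Adj v u from h2).symm
  · exact fun h => ⟨u, v, h, rfl, rfl⟩

theorem twinGraph_lift (B : SimpleGraph V) {n : ℕ} (hn : 2 ≤ n)
    (h : (SimpleGraph.cycleGraph n).IsContained (twinGraph B)) :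
    (SimpleGraph.cycleGraph n).IsContained B := by
  obtain ⟨f⟩ := h
  obtain ⟨m, rfl⟩ : ∃ m, n = m + 2 := ⟨n - 2, by omega⟩
  have h1 : ∀ i : Fin (m + 2), ∃ u, B.neighborSet u = f i := by
    intro i
    have h2 : (SimpleGraph.cycleGraph (m + 2)).Adj i (i + 1) := by
      rw [SimpleGraph.cycleGraph_adj]
      right
      exact add_sub_cancel_left i 1
    obtain ⟨u, v, _, hu, _⟩ := f.toHom.map_adj h2
    exact ⟨u, hu⟩
  choose u hu using h1
  refine ⟨⟨⟨u, ?_⟩, ?_⟩⟩
  · intro i i' hii
    rw [← twinGraph_adj, hu, hu]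
    exact f.toHom.map_adj hii
  · intro i i' hii
    have hii' : u i = u i' := hii
    have : f i = f i' := by rw [← hu, ← hu, hii']
    exact f.injective this

theorem neighborSet_smul {B : SimpleGraph V}
    (hB : ∀ (g : G) (u v : V), B.Adj u v → B.Adj (g • u) (g • v)) (g : G) (u : V) :
    B.neighborSet (g • u) = g • B.neighborSet u := by
  ext w
  rw [Set.mem_smul_set_iff_inv_smul_mem, SimpleGraph.mem_neighborSet, SimpleGraph.mem_neighborSet]
  constructor
  · intro h
    have := hB g⁻¹ _ _ h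
    rwa [inv_smul_smul] at this
  · intro h
    have := hB g _ _ h
    rwa [smul_inv_smul] at this

/-- The case with twins. -/
theorem with_twins [Fintype G] {B : SimpleGraph V}
    (hB : ∀ (g : G) (u v : V), B.Adj u v → B.Adj (g • u) (g • v))
    {x y : V} (hxy : B.Adj x y) (hx : ∀ w, B.Adj x w → ∃ g : G, w = g • y)
    (hy : ∀ w, B.Adj y w → ∃ g : G, w = g • x) {M : ℕ}
    (hM : ∀ u w, B.Adj u w → ∀ v, Nat.card {g : G // B.neighborSet (g • u) = B.neighborSet v} ≤ M)
    {k c : ℕ} (hc : 1 ≤ c)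
    (hk : 3 * 2 ^ c ≤ k + 3) (hS : k ^ 2 * M < Nat.card {g : G // B.Adj x (g • y)})
    (hnil : (⊤ : Subgroup G).lowerCentralSeries c = ⊥) :
    (SimpleGraph.cycleGraph (2 * k)).IsContained B := by
  have hk1 : 1 ≤ k := by
    have : 2 ^ 1 ≤ 2 ^ c := Nat.pow_le_pow_right (by norm_num) hc
    omega
  refine twinGraph_lift B (by omega) ?_
  have hB' : ∀ (g : G) (A A' : Set V), (twinGraph B).Adj A A' →
      (twinGraph B).Adj (g • A) (g • A') := by
    rintro g _ _ ⟨u, v, h, rfl, rfl⟩
    exact ⟨g • u, g • v, hB g _ _ h, neighborSet_smul hB g u, neighborSet_smul hB g v⟩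
  refine twin_free (G := G) (M := M) (c := c) hB' (x := B.neighborSet x) (y := B.neighborSet y)
    ((twinGraph_adj B).2 hxy) ?_ ?_ ?_ ?_ hc hk ?_ hnil
  · rintro A ⟨u, v, h, hu, rfl⟩
    have h1 : (twinGraph B).Adj (B.neighborSet x) (B.neighborSet v) := ⟨u, v, h, hu, rfl⟩
    obtain ⟨g, rfl⟩ := hx v ((twinGraph_adj B).1 h1)
    exact ⟨g, neighborSet_smul hB g y⟩
  · rintro A ⟨u, v, h, hu, rfl⟩
    have h1 : (twinGraph B).Adj (B.neighborSet y) (B.neighborSet v) := ⟨u, v, h, hu, rfl⟩
    obtain ⟨g, rfl⟩ := hy v ((twinGraph_adj B).1 h1)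
    exact ⟨g, neighborSet_smul hB g x⟩
  · rintro A A' ⟨C, u, w, h, rfl, rfl⟩ hAA
    have h0 := (hAA (B.neighborSet w)).1 ⟨u, w, h, rfl, rfl⟩
    obtain ⟨v, w', h', rfl, hw'⟩ := h0
    ext t
    constructor
    · intro ht
      exact (twinGraph_adj B).1 ((hAA (B.neighborSet t)).1 ((twinGraph_adj B).2 ht))
    · intro ht
      exact (twinGraph_adj B).1 ((hAA (B.neighborSet t)).2 ((twinGraph_adj B).2 ht))
  · rintro A A' ⟨u, w, h, rfl, rfl⟩ A''
    by_cases hne : ∃ g0 : G, g0 • B.neighborSet u = A''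
    · obtain ⟨g0, rfl⟩ := hne
      refine le_trans (le_of_eq ?_) (hM u w h (g0 • u))
      congr 1
      simp only [neighborSet_smul hB]
    · have : IsEmpty {g : G // g • B.neighborSet u = A''} := ⟨fun g => hne ⟨g.1, g.2⟩⟩
      rw [Nat.card_of_isEmpty]
      exact Nat.zero_le _
  · have e : ∀ g : G, (twinGraph B).Adj (B.neighborSet x) (g • B.neighborSet y) ↔ B.Adj x (g • y) := by
      intro g
      rw [← neighborSet_smul hB, twinGraph_adj]
    simp only [e]
    exact hS

/-- Enumeration of a part of a finite set. -/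
theorem enum (T : Finset V) {k : ℕ} (h : k ≤ T.card) (x0 : V) :
    ∃ f : ℕ → V, (∀ i < k, f i ∈ T) ∧ ∀ i i', i < k → i' < k → f i = f i' → i = i' := by
  refine ⟨fun i => if h : i < T.card then (T.equivFin.symm ⟨i, h⟩ : V) else x0, ?_, ?_⟩
  · intro i hi
    simp only [lt_of_lt_of_le hi h, dif_pos]
    exact (T.equivFin.symm _).2
  · intro i i' hi hi' heq
    simp only [lt_of_lt_of_le hi h, lt_of_lt_of_le hi' h, dif_pos] at heq
    have := T.equivFin.symm.injective (Subtype.ext heq)
    simpa using this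

/-- A complete bipartite graph contains the even cycle. -/
theorem bipartite_cycle (B : SimpleGraph V) (T N : Finset V) {k : ℕ} (hk : 2 ≤ k) (hT : k ≤ T.card)
    (hN : k ≤ N.card) (h : ∀ t ∈ T, ∀ n ∈ N, B.Adj t n) :
    (SimpleGraph.cycleGraph (2 * k)).IsContained B := by
  obtain ⟨x0, _⟩ : T.Nonempty := card_pos.1 (by omega)
  obtain ⟨t, ht, ti⟩ := enum T hT x0
  obtain ⟨n, hn, ni⟩ := enum N hN x0
  have hne : ∀ i i', i < k → i' < k → t i ≠ n i' := fun i i' h1 h2 e => by
    have := h _ (ht i h1) _ (hn i' h2)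
    rw [e] at this
    exact B.loopless.irrefl _ this
  refine cycle_of_fun B (fun i => if Even i then t (i / 2) else n (i / 2)) ?_ ?_ ?_
  · intro i hi
    by_cases he : Even i
    · have he' : ¬ Even (i + 1) := by
        rw [Nat.even_add_one]
        exact fun h => h he
      simp only [he, he', if_true, if_false]
      exact h _ (ht _ (by omega)) _ (hn _ (by omega))
    · have he' : Even (i + 1) := by
        rw [Nat.even_add_one]
        exact he
      simp only [he, he', if_true, if_false]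
      exact (h _ (ht _ (by omega)) _ (hn _ (by omega))).symm
  · have he : ¬ Even (2 * k - 1) := by
      rw [Nat.not_even_iff_odd]
      exact ⟨k - 1, by omega⟩
    simp only [he, if_false, Even.zero, if_true]
    exact (h _ (ht _ (by omega)) _ (hn _ (by omega))).symm
  · intro i i' hi hi'
    by_cases he : Even i <;> by_cases he' : Even i' <;> simp only [he, he', if_true, if_false]
    · intro heq
      have := ti _ _ (by omega) (by omega) heq
      obtain ⟨a, rfl⟩ := he
      obtain ⟨b, rfl⟩ := he'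
      omega
    · exact hne _ _ (by omega) (by omega)
    · exact (hne _ _ (by omega) (by omega)).symm
    · intro heq
      have := ni _ _ (by omega) (by omega) heq
      rw [Nat.not_even_iff_odd] at he he'
      obtain ⟨a, rfl⟩ := he
      obtain ⟨b, rfl⟩ := he'
      omega

/-- The edges between the orbits of `x` and `y`. -/
def biOrb (Γ : SimpleGraph V) (G : Type*) [Group G] [MulAction G V] (x y : V) : SimpleGraph V where
  Adj u v := Γ.Adj u v ∧ ((u ∈ MulAction.orbit G x ∧ v ∈ MulAction.orbit G y) ∨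
    (u ∈ MulAction.orbit G y ∧ v ∈ MulAction.orbit G x))
  symm := ⟨fun _ _ ⟨h, h'⟩ => ⟨h.symm, h'.elim (fun h => Or.inr ⟨h.2, h.1⟩) fun h => Or.inl ⟨h.2, h.1⟩⟩⟩
  loopless := ⟨fun _ ⟨h, _⟩ => Γ.loopless.irrefl _ h⟩

theorem card_move {x u w : V} [Finite G] (hu : u ∈ MulAction.orbit G x) :
    Nat.card {g : G // g • u = w} ≤ Nat.card {g : G // g • x = x} := by
  obtain ⟨a, rfl⟩ := hu
  by_cases hne : ∃ g0 : G, g0 • a • x = w
  · obtain ⟨g0, rfl⟩ := hne
    refine Nat.card_le_card_of_injective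
      (fun g => ⟨(g0 * a)⁻¹ * (g.1 * a), ?_⟩) ?_
    · have h1 : (g.1 * a) • x = (g0 * a) • x := by
        rw [mul_smul, mul_smul]
        exact g.2
      rw [mul_smul, h1, inv_smul_smul]
    · intro g g' h
      simp only [Subtype.mk.injEq, mul_right_inj, mul_left_inj] at h
      exact Subtype.ext h
  · have : IsEmpty {g : G // g • a • x = w} := ⟨fun g => hne ⟨g.1, g.2⟩⟩
    rw [Nat.card_of_isEmpty]
    exact Nat.zero_le _

theorem deg_smul {B : SimpleGraph V}
    (hB : ∀ (g : G) (u v : V), B.Adj u v → B.Adj (g • u) (g • v)) (g : G) (u : V) :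
    Nat.card {w // B.Adj (g • u) w} = Nat.card {w // B.Adj u w} := by
  refine Nat.card_congr ((MulAction.toPerm g).symm.subtypeEquiv fun w => ?_)
  constructor
  · intro h
    have := hB g⁻¹ _ _ h
    rwa [inv_smul_smul] at this
  · intro h
    have := hB g _ _ h
    simpa using this

theorem card_S [Finite V] [Finite G] {B : SimpleGraph V}
    {x y : V} (hx : ∀ w, B.Adj x w → ∃ g : G, w = g • y) :
    Nat.card {w // B.Adj x w} * Nat.card {g : G // g • y = y} ≤ Nat.card {g : G // B.Adj x (g • y)} := by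
  rw [← Nat.card_prod]
  choose! γ hγ using hx
  refine Nat.card_le_card_of_injective (fun p => ⟨γ p.1.1 * p.2.1, ?_⟩) ?_
  · rw [mul_smul, p.2.2, ← hγ _ p.1.2]
    exact p.1.2
  · rintro ⟨⟨w, hw⟩, ⟨a, ha⟩⟩ ⟨⟨w', hw'⟩, ⟨a', ha'⟩⟩ h
    have h1 : γ w * a = γ w' * a' := by
      simpa [Subtype.ext_iff] using h
    have h2 : w = w' := by
      rw [hγ w hw, hγ w' hw']
      have := congrArg (fun g : G => g • y) h1
      simp only [mul_smul] at this
      rw [ha, ha'] at this
      exact this
    subst h2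
    have h3 : a = a' := mul_left_cancel h1
    subst h3
    rfl

theorem card_S_symm {B : SimpleGraph V}
    (hB : ∀ (g : G) (u v : V), B.Adj u v → B.Adj (g • u) (g • v)) (x y : V) :
    Nat.card {g : G // B.Adj x (g • y)} = Nat.card {g : G // B.Adj y (g • x)} := by
  refine Nat.card_congr ((Equiv.inv G).subtypeEquiv fun g => ?_)
  simp only [Equiv.inv_apply]
  constructor
  · intro h
    have := hB g⁻¹ _ _ h
    rw [inv_smul_smul] at this
    exact this.symm
  · intro h
    have := hB g _ _ h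
    rw [smul_inv_smul] at this
    exact this.symm

/-- Two adjacent vertices with many neighbours in the orbits of each other. -/
theorem pair [Fintype V] [Fintype G] {Γ : SimpleGraph V}
    (hΓ : ∀ (g : G) (u v : V), Γ.Adj u v → Γ.Adj (g • u) (g • v)) {x y : V} (hxy : Γ.Adj x y)
    {k c : ℕ} (hc : 1 ≤ c) (hk : 3 * 2 ^ c ≤ k + 3)
    (hdx : k ^ 3 < Nat.card {w // Γ.Adj x w ∧ w ∈ MulAction.orbit G y})
    (hdy : k ^ 3 < Nat.card {w // Γ.Adj y w ∧ w ∈ MulAction.orbit G x})
    (hnil : (⊤ : Subgroup G).lowerCentralSeries c = ⊥) :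
    (SimpleGraph.cycleGraph (2 * k)).IsContained Γ := by
  classical
  have hk3 : 3 ≤ k := by
    have : 2 ^ 1 ≤ 2 ^ c := Nat.pow_le_pow_right (by norm_num) hc
    omega
  set B := biOrb Γ G x y with hBdef
  have hBΓ : B ≤ Γ := fun u v h => h.1
  suffices h : (SimpleGraph.cycleGraph (2 * k)).IsContained B from
    h.trans (SimpleGraph.IsContained.of_le hBΓ)
  have hxo : x ∈ MulAction.orbit G x := MulAction.mem_orbit_self x
  have hyo : y ∈ MulAction.orbit G y := MulAction.mem_orbit_self y
  have hB : ∀ (g : G) (u v : V), B.Adj u v → B.Adj (g • u) (g • v) := by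
    rintro g u v ⟨h, h'⟩
    refine ⟨hΓ g _ _ h, ?_⟩
    rcases h' with h' | h'
    · exact Or.inl ⟨MulAction.mem_orbit_of_mem_orbit g h'.1, MulAction.mem_orbit_of_mem_orbit g h'.2⟩
    · exact Or.inr ⟨MulAction.mem_orbit_of_mem_orbit g h'.1, MulAction.mem_orbit_of_mem_orbit g h'.2⟩
  have hBxy : B.Adj x y := ⟨hxy, Or.inl ⟨hxo, hyo⟩⟩
  have hBx : ∀ w, B.Adj x w ↔ Γ.Adj x w ∧ w ∈ MulAction.orbit G y := by
    intro w
    constructor
    · rintro ⟨h, h1 | h1⟩
      · exact ⟨h, h1.2⟩
      · refine ⟨h, ?_⟩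
        rw [← MulAction.orbit_eq_iff.2 h1.1]
        exact h1.2
    · exact fun h => ⟨h.1, Or.inl ⟨hxo, h.2⟩⟩
  have hBy : ∀ w, B.Adj y w ↔ Γ.Adj y w ∧ w ∈ MulAction.orbit G x := by
    intro w
    constructor
    · rintro ⟨h, h1 | h1⟩
      · refine ⟨h, ?_⟩
        rw [← MulAction.orbit_eq_iff.2 h1.1]
        exact h1.2
      · exact ⟨h, h1.2⟩
    · exact fun h => ⟨h.1, Or.inr ⟨hyo, h.2⟩⟩
  simp only [← hBx] at hdx
  simp only [← hBy] at hdy
  have hx : ∀ w, B.Adj x w → ∃ g : G, w = g • y := by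
    intro w hw
    obtain ⟨g, hg⟩ := ((hBx w).1 hw).2
    exact ⟨g, hg.symm⟩
  have hy : ∀ w, B.Adj y w → ∃ g : G, w = g • x := by
    intro w hw
    obtain ⟨g, hg⟩ := ((hBy w).1 hw).2
    exact ⟨g, hg.symm⟩
  by_contra hfree
  obtain ⟨rx, hrx⟩ : ∃ r, r = Nat.card {g : G // g • x = x} := ⟨_, rfl⟩
  obtain ⟨ry, hry⟩ : ∃ r, r = Nat.card {g : G // g • y = y} := ⟨_, rfl⟩
  have hrx1 : 1 ≤ rx := by
    rw [hrx]
    have : Nonempty {g : G // g • x = x} := ⟨⟨1, one_smul _ _⟩⟩
    exact Nat.card_pos
  have hkk : k ≤ k ^ 3 := Nat.le_self_pow (by norm_num) k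
  -- the bound for the elements moving a vertex to a twin class
  have hM : ∀ u w, B.Adj u w → ∀ v,
      Nat.card {g : G // B.neighborSet (g • u) = B.neighborSet v} ≤ (k - 1) * max rx ry := by
    intro u w huw v
    by_cases hne : ∃ g0 : G, B.neighborSet (g0 • u) = B.neighborSet v
    swap
    · have : IsEmpty {g : G // B.neighborSet (g • u) = B.neighborSet v} := ⟨fun g => hne ⟨g.1, g.2⟩⟩
      rw [Nat.card_of_isEmpty]
      exact Nat.zero_le _
    obtain ⟨g0, hg0⟩ := hne
    have hu : u ∈ MulAction.orbit G x ∨ u ∈ MulAction.orbit G y :=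
      huw.2.elim (fun h => Or.inl h.1) fun h => Or.inr h.1
    have hdeg : k < Nat.card {w // B.Adj v w} := by
      have h1 : Nat.card {w // B.Adj v w} = Nat.card {w // B.Adj u w} := by
        rw [← deg_smul hB g0 u]
        have : ∀ w, B.Adj v w ↔ B.Adj (g0 • u) w := by
          intro w
          rw [← SimpleGraph.mem_neighborSet, ← SimpleGraph.mem_neighborSet, hg0]
        simp only [this]
      rw [h1]
      rcases hu with ⟨a, rfl⟩ | ⟨a, rfl⟩
      · simp only
        rw [deg_smul hB a x]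
        omega
      · simp only
        rw [deg_smul hB a y]
        omega
    set T : Finset V := univ.filter fun t => B.neighborSet t = B.neighborSet v with hT
    have hTc : T.card ≤ k - 1 := by
      by_contra hcon
      apply hfree
      refine bipartite_cycle B T (univ.filter fun w => B.Adj v w) (by omega) (by omega) ?_ ?_
      · rw [Nat.card_eq_fintype_card, Fintype.card_subtype] at hdeg
        exact hdeg.le
      · intro t ht n hn
        have h1 := (mem_filter.1 ht).2
        have h2 : n ∈ B.neighborSet v := (mem_filter.1 hn).2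
        rw [← h1] at h2
        exact h2
    have hsub : (univ.filter fun g : G => B.neighborSet (g • u) = B.neighborSet v) ⊆
        T.biUnion fun t => univ.filter fun g : G => g • u = t := by
      intro g hg
      rw [mem_biUnion]
      exact ⟨g • u, mem_filter.2 ⟨mem_univ _, (mem_filter.1 hg).2⟩, mem_filter.2 ⟨mem_univ _, rfl⟩⟩
    rw [Nat.card_eq_fintype_card, Fintype.card_subtype]
    refine (card_le_card hsub).trans (card_biUnion_le.trans ?_)
    refine (sum_le_card_nsmul _ _ (max rx ry) ?_).trans ?_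
    · intro t _
      have h1 : (univ.filter fun g : G => g • u = t).card = Nat.card {g : G // g • u = t} := by
        rw [Nat.card_eq_fintype_card, Fintype.card_subtype]
      rw [h1]
      rcases hu with h | h
      · exact (card_move h).trans (hrx ▸ le_max_left _ _)
      · exact (card_move h).trans (hry ▸ le_max_right _ _)
    · rw [smul_eq_mul]
      exact Nat.mul_le_mul_right _ hTc
  apply hfree
  refine with_twins (G := G) (M := (k - 1) * max rx ry) (c := c) hB hBxy hx hy hM hc hk ?_ hnil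
  have h1 := card_S (G := G) hx
  have h2 := card_S (G := G) hy
  rw [card_S_symm hB y x] at h2
  rw [← hry] at h1
  rw [← hrx] at h2
  have h3 : k ^ 2 * ((k - 1) * max rx ry) ≤ k ^ 3 * max rx ry := by
    rw [← mul_assoc]
    refine Nat.mul_le_mul_right _ ?_
    rw [pow_succ k 2]
    exact Nat.mul_le_mul_left _ (Nat.sub_le _ _)
  refine lt_of_le_of_lt h3 ?_
  rcases le_total rx ry with h | h
  · rw [max_eq_right h]
    refine lt_of_lt_of_le ?_ h1
    exact Nat.mul_lt_mul_of_pos_right hdx (by omega)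
  · rw [max_eq_left h]
    refine lt_of_lt_of_le ?_ h2
    exact Nat.mul_lt_mul_of_pos_right hdy (by omega)

end Pool.Agent.helper17.EvenCycle
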